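import Pool.Agent.Y789.ED.Fin

/-!
# Equality in Edoukou's bound for the Hermitian threefold

Over the field `K` with `q ^ 2` elements, a hypersurface `V(F)` of degree `d ≤ q` of `P^4` meets the
non-degenerate Hermitian threefold `V₃ : x₀^(q+1) + ⋯ + x₄^(q+1) = 0` in exactly
`d (q^5 + q^2) + q^3 + 1` points over `K` if and only if `V(F)` is the union of `d` distinct
non-tangent hyperplanes containing a common plane `Π` such that `Π ∩ V₃` is a non-degenerate plane
Hermitian curve.
-/

set_option autoImplicit false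

namespace Pool.Agent.Results.MP_10b6e9_ag.EqualityCase

open Module

/-- The value at `x` of the linear form with coefficient vector `a`. -/
def lin {K : Type} [Field K] (a x : Fin 5 → K) : K := ∑ i, a i * x i

/-- `F` has exactly `N` projective zeros over `K` on the Hermitian threefold: every projective
point has `q ^ 2 - 1` representing vectors. -/
def HasNumPoints {K : Type} [Field K] (q : ℕ) (F : MvPolynomial (Fin 5) K) (N : ℕ) : Prop :=
  Set.ncard {x : Fin 5 → K | x ≠ 0 ∧ MvPolynomial.eval x F = 0 ∧ ∑ i, x i ^ (q + 1) = 0} =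
    (q ^ 2 - 1) * N

/-- The hyperplane with equation `a` is tangent to the Hermitian threefold: it is the hyperplane
`∑ x_i P_i^q = 0` for some point `P` of the threefold. -/
def IsTangent {K : Type} [Field K] (q : ℕ) (a : Fin 5 → K) : Prop :=
  ∃ P : Fin 5 → K, P ≠ 0 ∧ ∑ i, P i ^ (q + 1) = 0 ∧
    ∀ x : Fin 5 → K, lin a x = 0 ↔ ∑ i, x i * P i ^ q = 0

/-- The Hermitian form `∑ x_i y_i^q` is non-degenerate on the subspace `W`; for `W` of dimension
three the plane `P(W)` meets the threefold in a non-degenerate plane Hermitian curve. -/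
def IsNondegenerate {K : Type} [Field K] (q : ℕ) (W : Submodule K (Fin 5 → K)) : Prop :=
  ∀ x ∈ W, (∀ y ∈ W, ∑ i, x i * y i ^ q = 0) → x = 0

/-- The hypersurface `V(F)`, over the algebraic closure, is the union of the `d` distinct
non-tangent hyperplanes with equations `a 0, …, a (d - 1)`, which all contain a common plane
`P(W)` meeting the threefold in a non-degenerate plane Hermitian curve. -/
def IsPencilUnion {K : Type} [Field K] (q d : ℕ) (F : MvPolynomial (Fin 5) K)
    (a : Fin d → Fin 5 → K) : Prop :=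
  (∀ i, a i ≠ 0) ∧
  (∀ i j, i ≠ j → {x | lin (a i) x = 0} ≠ {x | lin (a j) x = 0}) ∧
  (∀ x : Fin 5 → AlgebraicClosure K, MvPolynomial.aeval x F = 0 ↔
    ∃ i, ∑ j, algebraMap K (AlgebraicClosure K) (a i j) * x j = 0) ∧
  (∀ i, ¬ IsTangent q (a i)) ∧
  ∃ W : Submodule K (Fin 5 → K), finrank K W = 3 ∧ (∀ i, ∀ x ∈ W, lin (a i) x = 0) ∧
    IsNondegenerate q W

open Pool.Agent.H566R3 Pool.Agent.Y789.ED in
theorem tangent_iff {K : Type} [Field K] [Fintype K] [DecidableEq K] {q : ℕ}
    (hq : Fintype.card K = q ^ 2) {a : Fin 5 → K} (ha : a ≠ 0) :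
    IsTangent q a ↔ ∑ i, a i ^ (q + 1) = 0 := by
  have h2 := two_le_q hq
  constructor
  · rintro ⟨P, hP, hP2, h⟩
    -- the two functionals are proportional
    have h3 : perp q P = perp q fun i => a i ^ q := by
      rw [← hyp_eq_perp hq]
      ext x
      exact (h x).symm
    have h4 : sf q P P = 0 := by rw [sf_eq]; exact hP2
    have hu0 : (fun i => a i ^ q) ≠ 0 := by
      intro h
      apply ha
      funext i
      exact eq_zero_of_pow_eq_zero (congrFun h i)
    have h5 := rad_perp_iso hq hP h4
    by_contra hne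
    have h6 : rad q (perp q fun i => a i ^ q) = ⊥ :=
      rad_perp_aniso hq (by rw [sf_conj hq]; exact hne)
    rw [← h3, h5, Submodule.span_singleton_eq_bot] at h6
    exact hP h6
  · intro h
    refine ⟨fun i => a i ^ q, ?_, ?_, ?_⟩
    · intro h
      apply ha
      funext i
      exact eq_zero_of_pow_eq_zero (congrFun h i)
    · rw [← sf_eq, sf_conj hq]
      exact h
    · intro x
      have := SetLike.ext_iff.1 (hyp_eq_perp hq a) x
      exact this

open Pool.Agent.H566R3 Pool.Agent.Y789.ED in
theorem nondeg_iff {K : Type} [Field K] {q : ℕ} (W : Submodule K (Fin 5 → K)) :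
    IsNondegenerate q W ↔ rad q W = ⊥ := by
  constructor
  · intro h
    rw [eq_bot_iff]
    rintro v ⟨h1, h2⟩
    exact (Submodule.mem_bot K).2 (h v h1 h2)
  · intro h x hx hy
    have : x ∈ rad q W := ⟨hx, hy⟩
    rw [h] at this
    exact (Submodule.mem_bot K).1 this

open Pool.Agent.H566R3 Pool.Agent.Y789.ED in
/-- Edoukou's conjecture on the case of equality. -/
theorem result (K : Type) [Field K] [Fintype K] (q d : ℕ) (hq : Fintype.card K = q ^ 2)
    (hd : 1 ≤ d) (hdq : d ≤ q) (F : MvPolynomial (Fin 5) K) (hF0 : F ≠ 0)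
    (hF : F.IsHomogeneous d) :
    HasNumPoints q F (d * (q ^ 5 + q ^ 2) + q ^ 3 + 1) ↔
      ∃ a : Fin d → Fin 5 → K, IsPencilUnion q d F a := by
  classical
  have h2 := two_le_q hq
  have hK1 : Fintype.card K - 1 = q ^ 2 - 1 := by rw [hq]
  -- number of vectors
  have hset : Set.ncard {x : Fin 5 → K | x ≠ 0 ∧ MvPolynomial.eval x F = 0 ∧
      ∑ i, x i ^ (q + 1) = 0} = NV q (fun v => MvPolynomial.eval v F = 0) := by
    unfold NV
    rw [← Set.ncard_coe_finset]
    congr 1
    ext v
    simp only [Set.mem_ofPred_eq, Finset.coe_filter, Finset.mem_univ, true_and, sf_eq]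
  unfold HasNumPoints
  rw [hset, ← hK1]
  constructor
  · intro h
    obtain ⟨a, ha, c, hc, hFc⟩ := main_factor hq hF hF0 hd hdq h
    have hev : ∀ v, MvPolynomial.eval v F = 0 ↔ ∃ i, dt (a i) v = 0 := by
      intro v
      rw [hFc, map_mul, map_prod, MvPolynomial.eval_C, mul_eq_zero, Finset.prod_eq_zero_iff]
      simp only [hc, false_or, Finset.mem_univ, true_and, eval_lf]
    rw [NV_congr hev] at h
    obtain ⟨e, rfl⟩ : ∃ e, d = e + 1 := ⟨d - 1, by omega⟩
    obtain ⟨g1, g2, W, g3, g4, g5⟩ := forward hq a ha h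
    refine ⟨a, ha, ?_, ?_, ?_, W, g3, fun i x hx => g4 i hx, (nondeg_iff W).2 g5⟩
    · intro i j hij heq
      exact g1 i j hij (SetLike.ext' heq)
    · intro x
      rw [hFc, map_mul, map_prod, mul_eq_zero, Finset.prod_eq_zero_iff]
      have hc' : MvPolynomial.aeval x (MvPolynomial.C c : MvPolynomial (Fin 5) K) ≠ 0 := by
        rw [MvPolynomial.aeval_C]
        simpa using hc
      have hl : ∀ i, MvPolynomial.aeval x (lf (a i)) =
          ∑ j, algebraMap K (AlgebraicClosure K) (a i j) * x j := by
        intro i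
        simp [lf]
      simp only [hc', false_or, Finset.mem_univ, true_and, hl]
    · intro i hi
      exact g2 i ((tangent_iff hq (ha i)).1 hi)
  · rintro ⟨a, ha, b1, b2, b3, W, b4, b5, b6⟩
    have hev : ∀ v, MvPolynomial.eval v F = 0 ↔ ∃ i, dt (a i) v = 0 := by
      intro v
      have h3 := b2 (fun i => algebraMap K (AlgebraicClosure K) (v i))
      have h4 : MvPolynomial.aeval (fun i => algebraMap K (AlgebraicClosure K) (v i)) F =
          algebraMap K (AlgebraicClosure K) (MvPolynomial.eval v F) := by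
        exact MvPolynomial.aeval_algebraMap_apply (AlgebraicClosure K) v F
      have h5 : ∀ i, ∑ j, algebraMap K (AlgebraicClosure K) (a i j) *
          algebraMap K (AlgebraicClosure K) (v j) =
          algebraMap K (AlgebraicClosure K) (dt (a i) v) := by
        intro i
        simp only [dt, map_sum, map_mul]
      rw [h4] at h3
      simp only [h5, map_eq_zero_iff _ (algebraMap K (AlgebraicClosure K)).injective] at h3
      exact h3
    rw [NV_congr hev]
    refine backward hq a ha ?_ ?_ hd W b4 (fun i x hx => b5 i x hx) ((nondeg_iff W).1 b6)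
    · intro i j hij heq
      exact b1 i j hij (congrArg SetLike.coe heq)
    · intro i hi
      exact b3 i ((tangent_iff hq (ha i)).2 hi)

end Pool.Agent.Results.MP_10b6e9_ag.EqualityCase
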